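import Pool.Agent.Y811.PC.Stm

/-!
# Project PC: the point `(c₀, z₀)` is isolated
-/

set_option autoImplicit false

namespace Pool.Agent.Y185.PC

open Complex Metric Set Filter Topology Pool.Agent.H712R2 Pool.Agent.Y811.PC

theorem fc_diff (d : ℕ) (c : ℂ) : Differentiable ℂ (fc d c) := by
  unfold fc
  fun_prop

theorem G_diff (d m : ℕ) (c : ℂ) : Differentiable ℂ (G d m c) := (fc_diff d c).iterate m

/-- `G d m c` is not the identity -/
theorem G_ne_id {d m : ℕ} (hd : 2 ≤ d) (hm : 1 ≤ m) (c : ℂ) : G d m c ≠ id := by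
  intro h
  obtain ⟨k, rfl⟩ : ∃ k, m = k + 1 := ⟨m - 1, by omega⟩
  have h1 : Function.Injective (fc d c) := by
    have h2 : Function.Injective ((fc d c)^[k] ∘ fc d c) := by
      rw [← Function.iterate_succ]
      change Function.Injective (G d (k + 1) c)
      rw [h]
      exact Function.injective_id
    exact h2.of_comp
  have hζ := Complex.isPrimitiveRoot_exp d (by omega : d ≠ 0)
  have h3 : fc d c (exp (2 * Real.pi * I / d)) = fc d c 1 := by
    unfold fc
    rw [hζ.pow_eq_one, one_pow]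
  exact hζ.ne_one (by omega) (h1 h3)

theorem t_ISO (h1 : S_FIN) (hA : S_ANA) : S_ISO := by
  intro d m q c₀ z₀ hPD
  have hl : ‖mu d m c₀ z₀‖ = 1 := hPD.mul.norm'_eq_one (by have := hPD.hq; omega)
  -- isolated parameters
  have hfin := h1 d m hPD.hd hPD.hm (mu d m c₀ z₀) hl.le
  obtain ⟨ε1, hε1, hε1'⟩ : ∃ ε1 : ℝ, 0 < ε1 ∧ ∀ c ∈ closedBall c₀ ε1, ∀ z, G d m c z = z →
      mu d m c z = mu d m c₀ z₀ → c = c₀ := by
    have h2 : ({c : ℂ | ∃ z, G d m c z = z ∧ mu d m c z = mu d m c₀ z₀} \ {c₀})ᶜ ∈ 𝓝 c₀ := by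
      refine IsOpen.mem_nhds (hfin.subset sdiff_subset).isClosed.isOpen_compl ?_
      intro h3
      exact h3.2 rfl
    obtain ⟨ε1, hε1, h4⟩ := nhds_basis_closedBall.mem_iff.1 h2
    refine ⟨ε1, hε1, fun c hc z hz hmu => ?_⟩
    by_contra hne
    exact h4 hc ⟨⟨z, hz, hmu⟩, hne⟩
  -- isolated fixed points
  obtain ⟨ε2, hε2, hε2'⟩ : ∃ ε2 : ℝ, 0 < ε2 ∧ ∀ z ∈ closedBall z₀ ε2, G d m c₀ z = z →
      z = z₀ := by
    have hdiff : Differentiable ℂ (fun z => G d m c₀ z - z) :=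
      (G_diff d m c₀).sub differentiable_id
    have han : AnalyticAt ℂ (fun z => G d m c₀ z - z) z₀ := hdiff.analyticAt z₀
    rcases han.eventually_eq_zero_or_eventually_ne_zero with h2 | h2
    · exfalso
      apply G_ne_id hPD.hd hPD.hm c₀
      have h3 : G d m c₀ =ᶠ[𝓝 z₀] id := by
        filter_upwards [h2] with z hz
        exact sub_eq_zero.1 hz
      exact AnalyticOnNhd.eq_of_eventuallyEq (fun z _ => (G_diff d m c₀).analyticAt z)
        (fun z _ => differentiable_id.analyticAt z) h3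
    · rw [eventually_nhdsWithin_iff] at h2
      obtain ⟨ε2, hε2, h4⟩ := nhds_basis_closedBall.eventually_iff.1 h2
      refine ⟨ε2, hε2, fun z hz hzf => ?_⟩
      by_contra hne
      exact h4 hz hne (sub_eq_zero.2 hzf)
  refine ⟨min ε1 ε2, lt_min hε1 hε2, fun η hη => ?_⟩
  have cG : Continuous (fun p : ℂ × ℂ => G d m p.1 p.2) :=
    continuous_iff_continuousAt.2 fun p => (hA d m p.1 p.2).1.continuousAt
  have cmu : Continuous (fun p : ℂ × ℂ => mu d m p.1 p.2) :=
    continuous_iff_continuousAt.2 fun p => (hA d m p.1 p.2).2.continuousAt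
  set S : Set (ℂ × ℂ) := (closedBall c₀ (min ε1 ε2) ×ˢ closedBall z₀ (min ε1 ε2)) ∩
    {p | G d m p.1 p.2 = p.2 ∧ (η ≤ ‖p.1 - c₀‖ ∨ η ≤ ‖p.2 - z₀‖)} with hS
  have hSc : IsCompact S := by
    refine ((isCompact_closedBall _ _).prod (isCompact_closedBall _ _)).inter_right ?_
    refine (isClosed_eq cG continuous_snd).inter ?_
    refine IsClosed.union ?_ ?_
    · exact isClosed_le continuous_const (continuous_fst.sub continuous_const).norm
    · exact isClosed_le continuous_const (continuous_snd.sub continuous_const).norm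
  have cφ : Continuous (fun p : ℂ × ℂ => ‖mu d m p.1 p.2 - mu d m c₀ z₀‖) :=
    (cmu.sub continuous_const).norm
  have hpos : ∀ p ∈ S, 0 < ‖mu d m p.1 p.2 - mu d m c₀ z₀‖ := by
    rintro ⟨c, α⟩ ⟨⟨hc, hα⟩, hG, hor⟩
    simp only at hc hα hG hor ⊢
    rw [norm_pos_iff, sub_ne_zero]
    intro hmu
    have hcc : c = c₀ := hε1' c (closedBall_subset_closedBall (min_le_left _ _) hc) α hG hmu
    subst hcc
    have hαα : α = z₀ := hε2' α (closedBall_subset_closedBall (min_le_right _ _) hα) hG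
    subst hαα
    rw [sub_self, sub_self, norm_zero] at hor
    rcases hor with h | h <;> linarith
  rcases S.eq_empty_or_nonempty with hSe | hSn
  · refine ⟨1, one_pos, fun c hc α hα hG _ => ?_⟩
    by_contra hcon
    rw [not_and_or, not_lt, not_lt] at hcon
    have : (c, α) ∈ S := ⟨⟨hc, hα⟩, hG, hcon⟩
    rw [hSe] at this
    exact this
  · obtain ⟨p0, hp0, hmin⟩ := hSc.exists_isMinOn hSn cφ.continuousOn
    have hp := hpos p0 hp0
    refine ⟨‖mu d m p0.1 p0.2 - mu d m c₀ z₀‖ / 2, by positivity, fun c hc α hα hG hle => ?_⟩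
    by_contra hcon
    rw [not_and_or, not_lt, not_lt] at hcon
    have hmem : (c, α) ∈ S := ⟨⟨hc, hα⟩, hG, hcon⟩
    have h5 : ‖mu d m p0.1 p0.2 - mu d m c₀ z₀‖ ≤ ‖mu d m c α - mu d m c₀ z₀‖ := hmin hmem
    linarith

end Pool.Agent.Y185.PC
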