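import Pool.Agent.Y811.PC.Stm

/-!
# Project PC: reparametrisation of an analytic germ
-/

set_option autoImplicit false

namespace Pool.Agent.Y185.PC

open Complex Metric Set Filter Topology Pool.Agent.Y811.PC

theorem t_REP : S_REP := by
  intro h hh h0 hne r hr
  obtain ⟨e, k, hk, hk0, hek⟩ := hh.exists_eventuallyEq_pow_smul_nonzero_iff.2 hne
  have he : 1 ≤ e := by
    rcases Nat.eq_zero_or_pos e with rfl | h1
    · exfalso
      have h2 := hek.self_of_nhds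
      rw [h0, sub_self, pow_zero, one_smul] at h2
      exact hk0 h2.symm
    · exact h1
  have he0 : (e : ℂ) ≠ 0 := by
    have : e ≠ 0 := by omega
    exact_mod_cast this
  -- the root of `k`
  set w : ℂ := exp (log (k 0) / e) with hw
  have hwe : w ^ e = k 0 := by
    rw [hw, ← Complex.exp_nat_mul, mul_div_cancel₀ _ he0, Complex.exp_log hk0]
  have hw0 : w ≠ 0 := Complex.exp_ne_zero _
  set κ : ℂ → ℂ := fun t => exp (log (k t / k 0) / e) * w with hκ
  have hq : AnalyticAt ℂ (fun t => k t / k 0) 0 := hk.div analyticAt_const hk0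
  have hκa : AnalyticAt ℂ κ 0 := by
    have h1 : AnalyticAt ℂ (fun t => log (k t / k 0)) 0 := by
      refine hq.clog ?_
      rw [div_self hk0]
      exact one_mem_slitPlane
    exact ((h1.div analyticAt_const he0).cexp).mul analyticAt_const
  have hκ0 : κ 0 ≠ 0 := mul_ne_zero (Complex.exp_ne_zero _) hw0
  have hκe : ∀ᶠ t in 𝓝 (0 : ℂ), κ t ^ e = k t := by
    have h1 : ∀ᶠ t in 𝓝 (0 : ℂ), k t ≠ 0 := hk.continuousAt.eventually_ne hk0
    filter_upwards [h1] with t ht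
    rw [hκ]
    simp only
    rw [mul_pow, ← Complex.exp_nat_mul, mul_div_cancel₀ _ he0,
      Complex.exp_log (div_ne_zero ht hk0), hwe, div_mul_cancel₀ _ hk0]
  set φ : ℂ → ℂ := fun t => t * κ t with hφ
  have hφa : AnalyticAt ℂ φ 0 := analyticAt_id.mul hκa
  have hφ0 : φ 0 = 0 := by rw [hφ]; simp
  have hφd : deriv φ 0 = κ 0 := by
    have h1 : HasDerivAt φ (1 * κ 0 + 0 * deriv κ 0) 0 :=
      (hasDerivAt_id (0 : ℂ)).mul hκa.differentiableAt.hasDerivAt
    rw [h1.deriv]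
    ring
  have hφd0 : deriv φ 0 ≠ 0 := by rw [hφd]; exact hκ0
  have hhφ : ∀ᶠ t in 𝓝 (0 : ℂ), h t = φ t ^ e := by
    filter_upwards [hek, hκe] with t h1 h2
    rw [h1, hφ]
    simp only
    rw [mul_pow, h2, sub_zero, smul_eq_mul]
  set ψ := hφa.hasStrictDerivAt.localInverse _ _ _ hφd0 with hψ
  have hψa : AnalyticAt ℂ ψ 0 := by
    have h1 := hφa.analyticAt_localInverse hφd0
    rwa [hφ0] at h1
  have hψ0 : ψ 0 = 0 := by
    have h1 : ψ (φ 0) = 0 :=
      (hφa.hasStrictDerivAt.eventually_left_inverse hφd0).self_of_nhds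
    rwa [hφ0] at h1
  have hψr : ∀ᶠ y in 𝓝 (0 : ℂ), φ (ψ y) = y := by
    have h1 := hφa.hasStrictDerivAt.eventually_right_inverse hφd0
    rwa [hφ0] at h1
  have hψt : Tendsto ψ (𝓝 0) (𝓝 0) := by
    have h1 := hψa.continuousAt.tendsto
    rwa [hψ0] at h1
  have hall : ∀ᶠ τ in 𝓝 (0 : ℂ), AnalyticAt ℂ ψ τ ∧ ψ τ ∈ ball (0 : ℂ) r ∧ h (ψ τ) = τ ^ e := by
    filter_upwards [hψa.eventually_analyticAt, hψt.eventually (ball_mem_nhds 0 hr), hψr,
      hψt.eventually hhφ] with τ h1 h2 h3 h4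
    exact ⟨h1, h2, by rw [h4, h3]⟩
  obtain ⟨δ, hδ, hδ2⟩ := Metric.eventually_nhds_iff_ball.1 hall
  exact ⟨e, δ, ψ, he, hδ, fun τ hτ => (hδ2 τ hτ).1.differentiableAt.differentiableWithinAt,
    hψ0, fun τ hτ => (hδ2 τ hτ).2⟩

end Pool.Agent.Y185.PC
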